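import Pool.Agent.R963.LR.Final

/-!
# MP_69292f_pr, Q1: long-range first-passage percolation at exponent `2d+1`

For every `d ≥ 1` and every direction `x ≠ 0`, `T(0,nx) = Θ(n (log n)^{-(d+1)/2})`: the
conjectured form holds, with `θ = (d+1)/2`, and no other `θ` is possible.

Lower bound: multiscale induction for `E exp(-λ T_r(x,y))`, where `T_r` uses the edges shorter
than `r = 2^k`, based on a van den Berg–Kesten type inequality for maxima of products and a tilted
lattice sum (the Euclidean norm is curved, which gives `(d+1)/2`).  Upper bound: multiscale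
induction for `E T_r(x,y)`, with one shortcut of length `≈ 3r/2` in each window of length
`≈ k r`, then Chebyshev's inequality for localized blocks.
-/

open MeasureTheory ProbabilityTheory

namespace Pool.Agent.Results.MP_69292f_pr.GrowthOrder

open Pool.Agent.R963.LR

/-- Let `x ∈ ℤ^d`, `x ≠ 0`.  Families `(ω_e)` of i.i.d. mean-one exponential variables on the
edges exist, and for every such family and every real `θ`,
`T(0,nx) = Θ(n (log n)^{-θ})` if and only if `θ = (d+1)/2`. -/
theorem result (d : ℕ) (x : V d) (hx : x ≠ 0) :
    (∃ P : Measure (Edge d → ℝ), IsProbabilityMeasure P ∧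
      IsExpFamily (fun (e : Edge d) (ω : Edge d → ℝ) => ω e) P) ∧
    ∀ (Ω : Type) [MeasurableSpace Ω] (P : Measure Ω) [IsProbabilityMeasure P]
      (X : Edge d → Ω → ℝ), IsExpFamily X P → ∀ θ : ℝ,
        (IsTheta P (fun n ω => passage (fun e => X e ω) 0 (n • x))
          (fun n => n * Real.log n ^ (-θ)) ↔ θ = ((d : ℝ) + 1) / 2) := by
  refine ⟨exists_family d, ?_⟩
  intro Ω _ P _ X hX θ
  have hmain := main hx hX
  have hmeas : ∀ n : ℕ, Measurable fun ω => passage (fun e => X e ω) 0 (n • x) := fun n =>
    (measurable_passage 0 (n • x)).comp (measurable_pi_lambda _ fun e => hX.measurable e)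
  constructor
  · intro h
    rcases lt_trichotomy θ (((d : ℝ) + 1) / 2) with hlt | heq | hgt
    · exact (theta_unique hmeas hlt h hmain).elim
    · exact heq
    · exact (theta_unique hmeas hgt hmain h).elim
  · rintro rfl
    exact hmain

end Pool.Agent.Results.MP_69292f_pr.GrowthOrder
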